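import Pool.Agent.Helper69.RK.StE

/-! Entropy library, module E4: restriction to events. -/

namespace Pool.Agent.Helper69.RK

open Finset

theorem e4_res_pos {Ω : Type} (μ : Ω → ℝ) (E : Ω → Prop) (ω : Ω) (h : E ω) : res μ E ω = μ ω := by
  unfold res
  rw [if_pos h]

theorem e4_res_neg {Ω : Type} (μ : Ω → ℝ) (E : Ω → Prop) (ω : Ω) (h : ¬ E ω) : res μ E ω = 0 := by
  unfold res
  rw [if_neg h]

theorem e4_res_nonneg {Ω : Type} (μ : Ω → ℝ) (E : Ω → Prop) (hμ : ∀ ω, 0 ≤ μ ω) (ω : Ω) : 0 ≤ res μ E ω := by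
  unfold res
  split_ifs
  · exact hμ ω
  · exact le_rfl

theorem e4_res_add {Ω : Type} (μ : Ω → ℝ) (E : Ω → Prop) (ω : Ω) :
    μ ω = res μ E ω + res μ (fun ω => ¬ E ω) ω := by
  by_cases h : E ω
  · rw [e4_res_pos μ E ω h, e4_res_neg μ (fun ω => ¬ E ω) ω (fun h' => h' h), add_zero]
  · rw [e4_res_neg μ E ω h, e4_res_pos μ (fun ω => ¬ E ω) ω h, zero_add]

/-- same atoms on the support -/
theorem e4_pr_congr {Ω α β : Type} [Fintype Ω] (μ : Ω → ℝ) (f : Ω → α) (g : Ω → β) (ω : Ω)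
    (h : ∀ ω', μ ω' ≠ 0 → (f ω' = f ω ↔ g ω' = g ω)) : pr μ f ω = pr μ g ω := by
  classical
  unfold pr
  refine Finset.sum_congr rfl fun ω' _ => ?_
  by_cases h0 : μ ω' = 0
  · rw [h0]
    split_ifs <;> rfl
  · by_cases h1 : f ω' = f ω
    · rw [if_pos h1, if_pos ((h ω' h0).1 h1)]
    · rw [if_neg h1, if_neg (fun h2 => h1 ((h ω' h0).2 h2))]

/-- an atom contained in the event keeps its mass -/
theorem e4_pr_res {Ω β : Type} [Fintype Ω] (μ : Ω → ℝ) (g : Ω → β) (E : Ω → Prop) (ω : Ω)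
    (h : ∀ ω', μ ω' ≠ 0 → g ω' = g ω → E ω') : pr (res μ E) g ω = pr μ g ω := by
  classical
  unfold pr
  refine Finset.sum_congr rfl fun ω' _ => ?_
  by_cases h1 : g ω' = g ω
  · rw [if_pos h1, if_pos h1]
    by_cases h0 : μ ω' = 0
    · unfold res
      rw [h0]
      split_ifs <;> rfl
    · exact e4_res_pos μ E ω' (h ω' h0 h1)
  · rw [if_neg h1, if_neg h1]

theorem e4_part {Ω α γ : Type} [Fintype Ω] (μ : Ω → ℝ) (f : Ω → α) (g : Ω → γ) (E : Ω → Prop)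
    (hE : ∀ ω ω', μ ω ≠ 0 → μ ω' ≠ 0 → g ω = g ω' → E ω → E ω') :
    CH (res μ E) f g =
      ∑ ω, res μ E ω * (Real.logb 2 (pr μ g ω) - Real.logb 2 (pr μ (fun ω' => (f ω', g ω')) ω)) := by
  unfold CH
  refine Finset.sum_congr rfl fun ω _ => ?_
  by_cases h : E ω
  · by_cases h0 : μ ω = 0
    · rw [e4_res_pos μ E ω h, h0, zero_mul, zero_mul]
    · rw [e4_pr_res μ g E ω (fun ω' h' hg => hE ω ω' h0 h' hg.symm h),
        e4_pr_res μ (fun ω' => (f ω', g ω')) E ω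
          (fun ω' h' hg => hE ω ω' h0 h' (Prod.ext_iff.1 hg).2.symm h)]
  · rw [e4_res_neg μ E ω h, zero_mul, zero_mul]

theorem e4_split {Ω α γ : Type} [Fintype Ω] (μ : Ω → ℝ) (f : Ω → α) (g : Ω → γ) (E : Ω → Prop)
    (hE : Dep μ g E) : CH μ f g = CH (res μ E) f g + CH (res μ (fun ω => ¬ E ω)) f g := by
  rw [e4_part μ f g E (fun ω ω' h h' hg hh => (hE ω ω' h h' hg) ▸ hh),
    e4_part μ f g (fun ω => ¬ E ω) (fun ω ω' h h' hg hh => fun h'' => hh ((hE ω ω' h h' hg).symm ▸ h'')),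
    ← Finset.sum_add_distrib]
  unfold CH
  refine Finset.sum_congr rfl fun ω _ => ?_
  rw [← add_mul, ← e4_res_add]

/-- conditioning on an event which is almost sure -/
theorem e4_cond {Ω α γ : Type} [Fintype Ω] (μ : Ω → ℝ) (f : Ω → α) (g : Ω → γ) (E : Ω → Prop) (b : Prop)
    (hE : ∀ ω, μ ω ≠ 0 → E ω = b) : CH μ f (fun ω => (E ω, g ω)) = CH μ f g := by
  unfold CH
  refine Finset.sum_congr rfl fun ω _ => ?_
  by_cases h0 : μ ω = 0
  · rw [h0, zero_mul, zero_mul]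
  · rw [e4_pr_congr μ (fun ω' => (E ω', g ω')) g ω, e4_pr_congr μ (fun ω' => (f ω', (E ω', g ω')))
      (fun ω' => (f ω', g ω')) ω]
    · intro ω' h'
      rw [Prod.mk.injEq, Prod.mk.injEq, Prod.mk.injEq, hE ω' h', hE ω h0]
      exact ⟨fun h => ⟨h.1, h.2.2⟩, fun h => ⟨h.1, rfl, h.2⟩⟩
    · intro ω' h'
      rw [Prod.mk.injEq, hE ω' h', hE ω h0]
      exact ⟨fun h => h.2, fun h => ⟨rfl, h⟩⟩

theorem e4_sum {Ω α γ : Type} [Fintype Ω] (μ : Ω → ℝ) (f : Ω → α) (g : Ω → γ) (E : Ω → Prop) :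
    CH μ f (fun ω => (E ω, g ω)) = CH (res μ E) f g + CH (res μ (fun ω => ¬ E ω)) f g := by
  rw [e4_split μ f (fun ω => (E ω, g ω)) E (fun ω ω' _ _ h => (Prod.ext_iff.1 h).1)]
  rw [e4_cond (res μ E) f g E True, e4_cond (res μ (fun ω => ¬ E ω)) f g E False]
  · intro ω h
    refine eq_false fun hE => h ?_
    exact e4_res_neg μ (fun ω => ¬ E ω) ω (fun h' => h' hE)
  · intro ω h
    refine eq_true ?_
    by_contra hE
    exact h (e4_res_neg μ E ω hE)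

theorem e4_swap {Ω α β γ : Type} [Fintype Ω] (μ : Ω → ℝ) (f : Ω → α) (h : Ω → β) (g : Ω → γ) :
    CH μ (fun ω => (f ω, h ω)) g = CH μ (fun ω => (h ω, f ω)) g := by
  unfold CH
  refine Finset.sum_congr rfl fun ω _ => ?_
  rw [e4_pr_congr μ (fun ω' => ((f ω', h ω'), g ω')) (fun ω' => ((h ω', f ω'), g ω')) ω]
  intro ω' _
  rw [Prod.mk.injEq, Prod.mk.injEq, Prod.mk.injEq, Prod.mk.injEq]
  exact ⟨fun h => ⟨⟨h.1.2, h.1.1⟩, h.2⟩, fun h => ⟨⟨h.1.2, h.1.1⟩, h.2⟩⟩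

theorem st_E4 (h1 : ST_E1) (h3 : ST_E3) : ST_E4 := by
  classical
  refine ⟨?_, ?_, ?_⟩
  · intro Ω α γ _ μ f g E _ hE
    exact e4_split μ f g E hE
  · intro Ω α γ _ μ f g E hμ
    obtain ⟨-, c1, s1⟩ := h1 Ω α Prop γ μ f E g hμ
    obtain ⟨-, c2, -⟩ := h1 Ω Prop α γ μ E f g hμ
    obtain ⟨n1, -, -⟩ := h1 Ω Prop Prop (α × γ) μ E E (fun ω => (f ω, g ω)) hμ
    have hs := e4_sum μ f g E
    rw [hs] at s1 c2
    refine ⟨s1, ?_⟩
    have hc : CH μ E g ≤ ∑ ω, μ ω * Real.logb 2 ((fun _ : Ω => (2 : ℝ)) ω) := by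
      refine h3.1 Ω Prop γ μ E g (fun _ => 2) hμ fun ω _ => ?_
      have h4 : ∀ s : Finset Prop, ((s.card : ℕ) : ℝ) ≤ 2 := by
        intro s
        have h5 : s.card ≤ Fintype.card Prop := Finset.card_le_univ s
        have h6 : Fintype.card Prop = 2 := Fintype.card_prop
        rw [h6] at h5
        exact_mod_cast h5
      exact h4 _
    have h7 : Real.logb 2 (2 : ℝ) = 1 := Real.logb_self_eq_one (by norm_num)
    simp only [h7, mul_one] at hc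
    have hm : CH μ E g ≤ mass μ := hc
    have hw := e4_swap μ f E g
    linarith
  · intro Ω _ μ E hμ
    refine ⟨?_, ?_, e4_res_nonneg μ E hμ⟩
    · unfold mass
      rw [← Finset.sum_add_distrib]
      exact Finset.sum_congr rfl fun ω _ => e4_res_add μ E ω
    · exact Finset.sum_nonneg fun ω _ => e4_res_nonneg μ E hμ ω

end Pool.Agent.Helper69.RK
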