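import Pool.Agent.Helper69.RK.StE

/-! Entropy library, module E6: slices. -/

namespace Pool.Agent.Helper69.RK

open Finset

theorem e6_pr_congr {Ω α β : Type} [Fintype Ω] (μ : Ω → ℝ) (f : Ω → α) (g : Ω → β) (ω : Ω)
    (h : ∀ ω', (f ω' = f ω ↔ g ω' = g ω)) : pr μ f ω = pr μ g ω := by
  classical
  unfold pr
  refine Finset.sum_congr rfl fun ω' _ => ?_
  by_cases h1 : f ω' = f ω
  · rw [if_pos h1, if_pos ((h ω').1 h1)]
  · rw [if_neg h1, if_neg (fun h2 => h1 ((h ω').2 h2))]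

theorem e6_pr {Ω S γ : Type} [Fintype Ω] [Fintype S] (lam : Ω × S → ℝ) (G : Ω × S → γ) (ω : Ω) (s : S) :
    pr lam (fun w => (G w, w.2)) (ω, s) = pr (fun ω' => lam (ω', s)) (fun ω' => G (ω', s)) ω := by
  classical
  unfold pr
  rw [Fintype.sum_prod_type_right, Finset.sum_eq_single s]
  · refine Finset.sum_congr rfl fun ω' _ => ?_
    by_cases h : G (ω', s) = G (ω, s)
    · rw [if_pos h]
      refine if_pos ?_
      show (G (ω', s), s) = (G (ω, s), s)
      rw [h]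
    · rw [if_neg h]
      refine if_neg ?_
      show ¬ (G (ω', s), s) = (G (ω, s), s)
      exact fun h' => h (Prod.ext_iff.1 h').1
  · intro s' _ hs
    refine Finset.sum_eq_zero fun ω' _ => if_neg ?_
    show ¬ (G (ω', s'), s') = (G (ω, s), s)
    exact fun h' => hs (Prod.ext_iff.1 h').2
  · intro h
    exact absurd (Finset.mem_univ s) h

theorem st_E6 : ST_E6 := by
  intro Ω S α γ _ _ lam f g _
  unfold CH
  rw [Fintype.sum_prod_type_right]
  refine Finset.sum_congr rfl fun s _ => Finset.sum_congr rfl fun ω _ => ?_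
  have h1 : pr lam (fun ω' => (f ω', (g ω', ω'.2))) (ω, s) = pr lam (fun ω' => ((f ω', g ω'), ω'.2)) (ω, s) := by
    refine e6_pr_congr lam _ _ (ω, s) fun w => ?_
    rw [Prod.mk.injEq, Prod.mk.injEq, Prod.mk.injEq, Prod.mk.injEq]
    exact ⟨fun h => ⟨⟨h.1, h.2.1⟩, h.2.2⟩, fun h => ⟨h.1.1, h.1.2, h.2⟩⟩
  rw [h1, e6_pr lam g ω s, e6_pr lam (fun w => (f w, g w)) ω s]

end Pool.Agent.Helper69.RK
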